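import Mathlib

set_option autoImplicit false

namespace Pool.Agent.H.MP_8476ae_an

open Finset

lemma rank_bound {ι X : Type*} [Fintype ι] [DecidableEq ι] [AddCommGroup X] [Module ℝ X]
    [FiniteDimensional ℝ X] (H : ι → ι → ℝ) (n : ℝ) (hn : 0 ≤ n)
    (hH : ∀ i i', ∑ j, H i j * H i' j = if i = i' then n else 0)
    (φ : ι → X →ₗ[ℝ] ℝ) (w : ι → X) :
    (∑ j, ∑ i, H i j * φ i (w j)) ^ 2 ≤
      n * Module.finrank ℝ X * ∑ j, ∑ i, (φ i (w j)) ^ 2 := by
  let T : X →ₗ[ℝ] EuclideanSpace ℝ ι :=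
    (WithLp.linearEquiv 2 ℝ (ι → ℝ)).symm.toLinearMap ∘ₗ LinearMap.pi φ
  have hT : ∀ x i, T x i = φ i x := fun _ _ => rfl
  let W := LinearMap.range T
  let b := stdOrthonormalBasis ℝ W
  let c : ι → W := fun j => ⟨T (w j), LinearMap.mem_range_self _ _⟩
  let α : ι → Fin (Module.finrank ℝ W) → ℝ := fun j e => inner ℝ (b e) (c j)
  let β : ι → Fin (Module.finrank ℝ W) → ℝ :=
    fun j e => ∑ i, H i j * (b e : EuclideanSpace ℝ ι) i
  have h1 : ∀ j i, φ i (w j) = ∑ e, α j e * (b e : EuclideanSpace ℝ ι) i := by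
    intro j i
    have := congrArg (fun v : W => (v : EuclideanSpace ℝ ι) i) (b.sum_repr' (c j))
    simp only [AddSubmonoidClass.coe_finsetSum, SetLike.val_smul, WithLp.ofLp_sum,
      WithLp.ofLp_smul, Finset.sum_apply, Pi.smul_apply, smul_eq_mul] at this
    exact this.symm
  have h2 : ∑ j, ∑ i, H i j * φ i (w j) = ∑ q : ι × Fin (Module.finrank ℝ W), β q.1 q.2 * α q.1 q.2 := by
    rw [Fintype.sum_prod_type]
    refine sum_congr rfl (fun j _ => ?_)
    simp only [h1 j, mul_sum, β, sum_mul]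
    rw [sum_comm]
    exact sum_congr rfl (fun e _ => sum_congr rfl (fun i _ => by ring))
  have h3 : ∑ q : ι × Fin (Module.finrank ℝ W), α q.1 q.2 ^ 2 = ∑ j, ∑ i, (φ i (w j)) ^ 2 := by
    rw [Fintype.sum_prod_type]
    refine sum_congr rfl (fun j _ => ?_)
    rw [b.sum_sq_inner_right (c j)]
    have : ‖c j‖ = ‖T (w j)‖ := rfl
    rw [this, EuclideanSpace.real_norm_sq_eq]
    rfl
  have h4 : ∑ q : ι × Fin (Module.finrank ℝ W), β q.1 q.2 ^ 2 = n * Module.finrank ℝ W := by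
    rw [Fintype.sum_prod_type, sum_comm]
    have : ∀ e, ∑ j, β j e ^ 2 = n := by
      intro e
      have a1 : ∑ j, β j e ^ 2 = ∑ i, ∑ i', (∑ j, H i j * H i' j) *
          ((b e : EuclideanSpace ℝ ι) i * (b e : EuclideanSpace ℝ ι) i') := by
        simp only [β, sq, sum_mul_sum]
        simp only [sum_mul]
        rw [sum_comm]
        refine sum_congr rfl (fun i _ => ?_)
        rw [sum_comm]
        exact sum_congr rfl (fun i' _ => sum_congr rfl (fun j _ => by ring))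
      have a2 : ∑ i, ((b e : EuclideanSpace ℝ ι) i) ^ 2 = 1 := by
        rw [← EuclideanSpace.real_norm_sq_eq]
        have : ‖(b e : EuclideanSpace ℝ ι)‖ = 1 := b.orthonormal.1 e
        rw [this]; norm_num
      rw [a1]
      simp only [hH, ite_mul, zero_mul, sum_ite_eq, mem_univ, if_true]
      rw [← mul_sum]
      simp only [← sq]
      rw [a2, mul_one]
    simp [this, mul_comm]
  rw [h2]
  refine (sum_mul_sq_le_sq_mul_sq _ _ _).trans ?_
  rw [h3, h4]
  apply mul_le_mul_of_nonneg_right _ (by positivity)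
  apply mul_le_mul_of_nonneg_left _ hn
  exact_mod_cast LinearMap.finrank_range_le T

def hd {r : ℕ} (i j : Fin r → Bool) : ℝ := ∏ l, if i l = true ∧ j l = true then -1 else 1

lemma hd_orth {r : ℕ} (i i' : Fin r → Bool) :
    ∑ j, hd i j * hd i' j = if i = i' then (2 : ℝ) ^ r else 0 := by
  have := Finset.prod_univ_sum (fun _ : Fin r => (univ : Finset Bool))
    (fun l b => (if i l = true ∧ b = true then (-1 : ℝ) else 1) *
      (if i' l = true ∧ b = true then -1 else 1))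
  rw [Fintype.piFinset_univ] at this
  unfold hd
  simp only [← prod_mul_distrib]
  rw [← this]
  split_ifs with h
  · subst h
    have h2 : ∀ l, ∑ b : Bool, (if i l = true ∧ b = true then (-1 : ℝ) else 1) *
        (if i l = true ∧ b = true then -1 else 1) = 2 := by
      intro l
      cases i l <;> norm_num
    simp only [h2, prod_const, card_univ, Fintype.card_fin]
  · obtain ⟨l, hl⟩ := Function.ne_iff.1 h
    apply prod_eq_zero (mem_univ l)
    cases h1 : i l <;> cases h2 : i' l <;> simp [h1, h2] at hl ⊢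

lemma hd_sign {r : ℕ} (i j : Fin r → Bool) : hd i j = 1 ∨ hd i j = -1 := by
  unfold hd
  refine prod_induction _ (fun x : ℝ => x = 1 ∨ x = -1) ?_ (Or.inl rfl) ?_
  · rintro a b (rfl | rfl) (rfl | rfl) <;> simp
  · intro l _
    split_ifs <;> simp

lemma low {p : ℕ} (hp : 1 ≤ p) {γ x x0 b0 : ℝ} (hγ : 0 ≤ γ) (hx : 0 ≤ x) (hx0 : 0 ≤ x0)
    (h0 : γ ≤ x0 + b0) :
    γ ^ p / 11 ≤ (if γ ≤ 11 * b0 then γ ^ (p - 1) else 0) * (γ - x) +
      (11 / 10 * x0) ^ p + (11 / 10 * x) ^ p := by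
  obtain ⟨q, rfl⟩ := Nat.exists_eq_add_of_le' hp
  simp only [Nat.add_sub_cancel]
  have a0 : 0 ≤ (11 / 10 * x0) ^ (q + 1) := by positivity
  have a1 : 0 ≤ (11 / 10 * x) ^ (q + 1) := by positivity
  have a2 : 0 ≤ γ ^ q := by positivity
  split_ifs with h
  · by_cases hx2 : x ≤ 10 / 11 * γ
    · have := mul_le_mul_of_nonneg_left hx2 a2
      rw [pow_succ] 
      nlinarith
    · push Not at hx2
      have a3 : γ ^ q ≤ (11 / 10 * x) ^ q := pow_le_pow_left₀ hγ (by linarith) q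
      have a4 : γ ^ q * x ≤ (11 / 10 * x) ^ (q + 1) := by
        rw [pow_succ]
        exact mul_le_mul a3 (by linarith) hx (by positivity)
      have a5 : 0 ≤ γ ^ q * γ := by positivity
      rw [pow_succ γ]
      nlinarith
  · push Not at h
    have a3 : γ ^ (q + 1) ≤ (11 / 10 * x0) ^ (q + 1) := pow_le_pow_left₀ hγ (by linarith) _
    have a4 : 0 ≤ γ ^ (q + 1) := by positivity
    linarith

lemma coord {ι X : Type*} [Fintype ι] [DecidableEq ι] [NormedAddCommGroup X] [NormedSpace ℝ X]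
    [FiniteDimensional ℝ X] (H : ι → ι → ℝ)
    (hH : ∀ i i', ∑ j, H i j * H i' j = if i = i' then (Fintype.card ι : ℝ) else 0)
    (hs : ∀ i j, H i j = 1 ∨ H i j = -1) {p : ℕ} (hp : 2 ≤ p) {δ : ℝ} (hδ : 0 ≤ δ)
    (hk : (Module.finrank ℝ X : ℝ) ≤ δ ^ 2 * Fintype.card ι)
    (s t w : ι → X) (A B : ι → ι → X) (hAB : ∀ i j, s i - t i = A i j + H i j • w j + B i j)
    (j0 : ι) :
    ∑ j : ι, ∑ i, ‖s i - t i‖ ^ p / 11 ≤
      δ * 11 ^ (p - 1) * (Fintype.card ι * ∑ j, (‖w j0‖ ^ p + ‖w j‖ ^ p)) +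
      (11 / 10) ^ p * 2 ^ (p - 1) *
        ∑ j, ∑ i, (‖A i j0‖ ^ p + ‖B i j0‖ ^ p + ‖A i j‖ ^ p + ‖B i j‖ ^ p) := by
  set n : ℝ := (Fintype.card ι : ℝ) with hn
  have hn0 : 0 ≤ n := by positivity
  choose ψ hψ1 hψ2 using fun i => exists_dual_vector'' ℝ (s i - t i)
  have hψ : ∀ i x, |ψ i x| ≤ ‖x‖ := fun i x =>
    ((ψ i).le_opNorm x).trans (mul_le_of_le_one_left (norm_nonneg _) (hψ1 i))
  set lam : ι → ℝ := fun i => if ‖s i - t i‖ ≤ 11 * ‖w j0‖ then ‖s i - t i‖ ^ (p - 1) else 0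
    with hlam
  have hl0 : ∀ i, 0 ≤ lam i := fun i => by
    simp only [hlam]; split_ifs <;> positivity
  have hl1 : ∀ i, lam i ≤ (11 * ‖w j0‖) ^ (p - 1) := fun i => by
    simp only [hlam]
    split_ifs with h
    · exact pow_le_pow_left₀ (norm_nonneg _) h _
    · positivity
  have hHw : ∀ i j, ‖H i j • w j‖ = ‖w j‖ := fun i j => by
    rcases hs i j with h | h <;> simp [h]
  have h1 : ∀ i j, ‖s i - t i‖ - (‖A i j‖ + ‖B i j‖) ≤ H i j * ψ i (w j) := by
    intro i j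
    have a1 : ψ i (s i - t i) = ‖s i - t i‖ := hψ2 i
    rw [← a1]
    conv_lhs => rw [hAB i j]
    rw [map_add, map_add, map_smul, smul_eq_mul]
    linarith [(abs_le.1 (hψ i (A i j))).2, (abs_le.1 (hψ i (B i j))).2]
  have h0 : ∀ i, ‖s i - t i‖ ≤ (‖A i j0‖ + ‖B i j0‖) + ‖w j0‖ := by
    intro i
    rw [hAB i j0]
    have := norm_add₃_le (a := A i j0) (b := H i j0 • w j0) (c := B i j0)
    rw [hHw] at this
    linarith
  have hR := rank_bound H n hn0 hH (fun i => lam i • (ψ i).toLinearMap) w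
  simp only [LinearMap.smul_apply, ContinuousLinearMap.coe_coe, smul_eq_mul] at hR
  set E : ℝ := ∑ j, (‖w j0‖ ^ p + ‖w j‖ ^ p) with hE
  have hE0 : 0 ≤ E := sum_nonneg (fun _ _ => by positivity)
  have hF : n * ∑ j, ∑ i, (lam i * ψ i (w j)) ^ 2 ≤ (11 ^ (p - 1) * E) ^ 2 * n := by
    obtain ⟨q, rfl⟩ := Nat.exists_eq_add_of_le' hp
    have e1 : q + 2 - 1 = q + 1 := rfl
    rw [e1] at hl1 ⊢
    have a1 : ∀ j, ∑ i, (lam i * ψ i (w j)) ^ 2 ≤
        n * ((11 ^ (q + 1)) ^ 2 * ‖w j0‖ ^ (q + 2) * (‖w j0‖ ^ (q + 2) + ‖w j‖ ^ (q + 2))) := by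
      intro j
      have b1 : ‖w j0‖ ^ q * ‖w j‖ ^ 2 ≤ ‖w j0‖ ^ (q + 2) + ‖w j‖ ^ (q + 2) := by
        rcases le_total ‖w j0‖ ‖w j‖ with h | h
        · refine le_add_of_nonneg_of_le (by positivity) ?_
          rw [pow_add]
          exact mul_le_mul_of_nonneg_right (pow_le_pow_left₀ (norm_nonneg _) h _) (by positivity)
        · refine le_add_of_le_of_nonneg ?_ (by positivity)
          rw [pow_add]
          exact mul_le_mul_of_nonneg_left (pow_le_pow_left₀ (norm_nonneg _) h _) (by positivity)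
      have b2 : ∀ i, (lam i * ψ i (w j)) ^ 2 ≤
          (11 ^ (q + 1)) ^ 2 * ‖w j0‖ ^ (q + 2) * (‖w j0‖ ^ (q + 2) + ‖w j‖ ^ (q + 2)) := by
        intro i
        have c1 : (lam i * ψ i (w j)) ^ 2 ≤ ((11 * ‖w j0‖) ^ (q + 1) * ‖w j‖) ^ 2 := by
          rw [← sq_abs, abs_mul, abs_of_nonneg (hl0 i)]
          exact pow_le_pow_left₀ (mul_nonneg (hl0 i) (abs_nonneg _))
            (mul_le_mul (hl1 i) (hψ i _) (abs_nonneg _) (by positivity)) 2
        refine c1.trans ?_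
        have c2 : ((11 * ‖w j0‖) ^ (q + 1) * ‖w j‖) ^ 2 =
            (11 ^ (q + 1)) ^ 2 * ‖w j0‖ ^ (q + 2) * (‖w j0‖ ^ q * ‖w j‖ ^ 2) := by ring
        rw [c2]
        exact mul_le_mul_of_nonneg_left b1 (by positivity)
      refine (sum_le_sum (fun i _ => b2 i)).trans (le_of_eq ?_)
      simp [hn]
    have a2 : n * ‖w j0‖ ^ (q + 2) ≤ E := by
      rw [hE, sum_add_distrib]
      refine le_add_of_le_of_nonneg (le_of_eq ?_) (sum_nonneg (fun _ _ => by positivity))
      simp [hn]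
    have a3 : ∑ j, ∑ i, (lam i * ψ i (w j)) ^ 2 ≤ (11 ^ (q + 1)) ^ 2 * (n * ‖w j0‖ ^ (q + 2)) * E := by
      refine (sum_le_sum (fun j _ => a1 j)).trans (le_of_eq ?_)
      rw [hE, mul_sum]
      exact sum_congr rfl (fun j _ => by ring)
    have a4 : (11 ^ (q + 1)) ^ 2 * (n * ‖w j0‖ ^ (q + 2)) * E ≤ (11 ^ (q + 1) * E) ^ 2 := by
      have := mul_le_mul_of_nonneg_right
        (mul_le_mul_of_nonneg_left a2 (by positivity : (0 : ℝ) ≤ (11 ^ (q + 1)) ^ 2)) hE0
      refine this.trans (le_of_eq (by ring))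
    rw [mul_comm]
    exact mul_le_mul_of_nonneg_right (a3.trans a4) hn0
  have hS : ∑ j, ∑ i, H i j * (lam i * ψ i (w j)) ≤ δ * 11 ^ (p - 1) * (n * E) := by
    refine le_of_sq_le_sq ?_ (by positivity)
    refine hR.trans ?_
    have a1 : n * (Module.finrank ℝ X : ℝ) * ∑ j, ∑ i, (lam i * ψ i (w j)) ^ 2 =
        (Module.finrank ℝ X : ℝ) * (n * ∑ j, ∑ i, (lam i * ψ i (w j)) ^ 2) := by ring
    rw [a1]
    refine (mul_le_mul hk hF (by positivity) (by positivity)).trans (le_of_eq (by ring))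
  refine le_trans ?_ (add_le_add_left hS _)
  rw [mul_sum, ← sum_add_distrib]
  refine sum_le_sum (fun j _ => ?_)
  rw [mul_sum, ← sum_add_distrib]
  refine sum_le_sum (fun i _ => ?_)
  have a1 := low (by omega : 1 ≤ p) (norm_nonneg (s i - t i))
    (by positivity : 0 ≤ ‖A i j‖ + ‖B i j‖) (by positivity : 0 ≤ ‖A i j0‖ + ‖B i j0‖) (h0 i)
  have a2 := mul_le_mul_of_nonneg_left (h1 i j) (hl0 i)
  have a3 := mul_le_mul_of_nonneg_left (add_pow_le (norm_nonneg (A i j)) (norm_nonneg (B i j)) p)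
    (by positivity : (0 : ℝ) ≤ (11 / 10) ^ p)
  have a4 := mul_le_mul_of_nonneg_left (add_pow_le (norm_nonneg (A i j0)) (norm_nonneg (B i j0)) p)
    (by positivity : (0 : ℝ) ≤ (11 / 10) ^ p)
  rw [mul_pow, mul_pow] at a1
  simp only [hlam] at a2 ⊢
  nlinarith

open Classical in
noncomputable def dd {M : Type} (adj far : M → M → Prop) (x y : M) : ℝ :=
  if x = y then 0 else if adj x y then 1 else if far x y then 3 else 2

@[reducible] noncomputable def ms {M : Type} (adj far : M → M → Prop)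
    (h1 : ∀ x y, adj x y ↔ adj y x) (h2 : ∀ x y, far x y ↔ far y x)
    (h3 : ∀ x y z, far x y → adj x z → adj z y → False) : MetricSpace M where
  dist := dd adj far
  dist_self x := by simp [dd]
  dist_comm x y := by
    unfold dd
    by_cases a1 : x = y
    · rw [if_pos a1, if_pos a1.symm]
    · rw [if_neg a1, if_neg (Ne.symm a1)]
      by_cases a2 : adj x y
      · rw [if_pos a2, if_pos ((h1 x y).1 a2)]
      · rw [if_neg a2, if_neg (fun h => a2 ((h1 x y).2 h))]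
        by_cases a3 : far x y
        · rw [if_pos a3, if_pos ((h2 x y).1 a3)]
        · rw [if_neg a3, if_neg (fun h => a3 ((h2 x y).2 h))]
  dist_triangle x z y := by
    have h4 := h3 x y z
    unfold dd
    by_cases a1 : x = z
    · subst a1; simp
    by_cases a2 : z = y
    · subst a2; simp
    rw [if_neg a1, if_neg a2]
    split_ifs <;> first | (exfalso; tauto) | norm_num
  eq_of_dist_eq_zero := by
    intro x y h
    by_contra hc
    change dd adj far x y = 0 at h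
    unfold dd at h
    rw [if_neg hc] at h
    split_ifs at h <;> norm_num at h

abbrev V (r : ℕ) : Type := Bool × Bool × (Fin r → Bool)

open Classical in
noncomputable def hb {r : ℕ} (i j : Fin r → Bool) : Bool := decide (hd i j = -1)

def adj {r : ℕ} : V r → V r → Prop
  | (false, σ, i), (true, τ, j) => τ = xor σ (hb i j)
  | (true, τ, j), (false, σ, i) => τ = xor σ (hb i j)
  | (true, τ, j), (true, τ', j') => j = j' ∧ τ ≠ τ'
  | (false, _, _), (false, _, _) => False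

def far {r : ℕ} (x y : V r) : Prop := x.1 = false ∧ y.1 = false ∧ x.2.2 = y.2.2 ∧ x.2.1 ≠ y.2.1

lemma adj_symm {r : ℕ} (x y : V r) : adj x y ↔ adj y x := by
  obtain ⟨a, b, i⟩ := x
  obtain ⟨a', b', i'⟩ := y
  cases a <;> cases a' <;> simp only [adj]
  constructor <;> rintro ⟨h1, h2⟩ <;> exact ⟨h1.symm, h2.symm⟩

lemma far_symm {r : ℕ} (x y : V r) : far x y ↔ far y x := by
  unfold far
  constructor <;> rintro ⟨h1, h2, h3, h4⟩ <;> exact ⟨h2, h1, h3.symm, h4.symm⟩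

lemma far_adj {r : ℕ} (x y z : V r) : far x y → adj x z → adj z y → False := by
  obtain ⟨a, b, i⟩ := x
  obtain ⟨a', b', i'⟩ := y
  obtain ⟨a'', b'', i''⟩ := z
  rintro ⟨h1, h2, h3, h4⟩
  simp only at h1 h2 h3 h4
  subst h1 h2 h3
  cases a'' <;> simp only [adj]
  · exact fun h _ => h
  · intro h5 h6
    rw [h5] at h6
    cases b <;> cases b' <;> cases hb i i'' <;> simp at h4 h6

lemma dd_adj {M : Type} {adj far : M → M → Prop} {x y : M} (h : adj x y) : dd adj far x y ≤ 1 := by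
  unfold dd
  split_ifs <;> norm_num

lemma key {r p : ℕ} (hp : 41 ≤ p) {X : Type*} [NormedAddCommGroup X] [NormedSpace ℝ X]
    [FiniteDimensional ℝ X] (hk : (Module.finrank ℝ X : ℝ) ≤ (1 / 11 ^ p) ^ 2 * 2 ^ r)
    (f : V r → lp (fun _ : ℕ => X) (ENNReal.ofReal p))
    (hf : ∀ x y, dd adj far x y ≤ ‖f x - f y‖ ∧ ‖f x - f y‖ ≤ 5 / 4 * dd adj far x y) :
    False := by
  have hpr : (ENNReal.ofReal (p : ℝ)).toReal = p := ENNReal.toReal_ofReal (by positivity)
  have hG : ∀ x y, HasSum (fun m => ‖f x m - f y m‖ ^ p) (‖f x - f y‖ ^ p) := by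
    intro x y
    have := lp.hasSum_norm (p := ENNReal.ofReal (p : ℝ))
      (by rw [hpr]; exact_mod_cast (by omega : 0 < p)) (f x - f y)
    simp only [hpr, Real.rpow_natCast] at this
    exact this
  have hE : ∀ x y, adj x y → ‖f x - f y‖ ^ p ≤ (5 / 4) ^ p := by
    intro x y h
    apply pow_le_pow_left₀ ((lp.norm_nonneg' _))
    have := dd_adj (far := far) h
    linarith [(hf x y).2]
  have hF : ∀ i, (3 : ℝ) ^ p ≤ ‖f (false, false, i) - f (false, true, i)‖ ^ p := by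
    intro i
    apply pow_le_pow_left₀ (by norm_num)
    refine le_trans (le_of_eq ?_) (hf _ _).1
    unfold dd
    simp [adj, far]
  have hcard : (Fintype.card (Fin r → Bool) : ℝ) = 2 ^ r := by simp
  let j0 : Fin r → Bool := fun _ => false
  have hm : ∀ m : ℕ, _ := fun m => coord (X := X) (ι := Fin r → Bool) hd
    (fun i i' => by rw [hcard]; exact hd_orth i i') hd_sign (p := p) (by omega)
    (δ := 1 / 11 ^ p) (by positivity) (by rw [hcard]; exact hk)
    (fun i => f (false, false, i) m) (fun i => f (false, true, i) m)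
    (fun j => f (true, false, j) m - f (true, true, j) m)
    (fun i j => f (false, false, i) m - f (true, hb i j, j) m)
    (fun i j => f (true, !hb i j, j) m - f (false, true, i) m)
    (fun i j => by
      rcases hd_sign i j with h | h
      · have : hb i j = false := by unfold hb; rw [h]; norm_num
        rw [this, h]; simp
      · have : hb i j = true := by unfold hb; rw [h]; norm_num
        rw [this, h]; simp) j0
  have hL := hasSum_sum (s := univ) (fun (j : Fin r → Bool) _ => hasSum_sum (s := univ)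
    (fun (i : Fin r → Bool) _ => (hG (false, false, i) (false, true, i)).div_const 11))
  have hR1 := ((hasSum_sum (s := univ) (fun (j : Fin r → Bool) _ =>
    (hG (true, false, j0) (true, true, j0)).add (hG (true, false, j) (true, true, j)))).mul_left
      (Fintype.card (Fin r → Bool) : ℝ)).mul_left (1 / 11 ^ p * 11 ^ (p - 1))
  have hR2 := (hasSum_sum (s := univ) (fun (j : Fin r → Bool) _ => hasSum_sum (s := univ)
    (fun (i : Fin r → Bool) _ =>
      (((hG (false, false, i) (true, hb i j0, j0)).add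
        (hG (true, !hb i j0, j0) (false, true, i))).add
        (hG (false, false, i) (true, hb i j, j))).add
        (hG (true, !hb i j, j) (false, true, i))))).mul_left ((11 / 10) ^ p * 2 ^ (p - 1))
  have hfin := hasSum_le hm hL (hR1.add hR2)
  rw [hcard] at hfin
  have e1 : ∀ j : Fin r → Bool, adj (true, false, j) (true, true, j) := fun j => ⟨rfl, by simp⟩
  have e2 : ∀ i j : Fin r → Bool, adj (false, false, i) (true, hb i j, j) := fun i j => by
    simp [adj]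
  have e3 : ∀ i j : Fin r → Bool, adj (true, !hb i j, j) (false, true, i) := fun i j => by
    simp [adj]
  have b1 : (2 : ℝ) ^ r * (2 ^ r * (3 ^ p / 11)) ≤ ∑ j : Fin r → Bool, ∑ i : Fin r → Bool,
      ‖f (false, false, i) - f (false, true, i)‖ ^ p / 11 := by
    refine le_trans (le_of_eq ?_) (sum_le_sum (fun j _ => sum_le_sum (fun i _ =>
      div_le_div_of_nonneg_right (hF i) (by norm_num))))
    simp
  have b2 : ∑ j : Fin r → Bool, (‖f (true, false, j0) - f (true, true, j0)‖ ^ p +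
      ‖f (true, false, j) - f (true, true, j)‖ ^ p) ≤ 2 ^ r * (2 * (5 / 4) ^ p) := by
    refine (sum_le_sum (fun j _ => add_le_add (hE _ _ (e1 j0)) (hE _ _ (e1 j)))).trans (le_of_eq ?_)
    simp; ring
  have b3 : ∑ j : Fin r → Bool, ∑ i : Fin r → Bool,
      (‖f (false, false, i) - f (true, hb i j0, j0)‖ ^ p +
        ‖f (true, !hb i j0, j0) - f (false, true, i)‖ ^ p +
        ‖f (false, false, i) - f (true, hb i j, j)‖ ^ p +
        ‖f (true, !hb i j, j) - f (false, true, i)‖ ^ p) ≤ 2 ^ r * (2 ^ r * (4 * (5 / 4) ^ p)) := by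
    refine (sum_le_sum (fun j _ => sum_le_sum (fun i _ => add_le_add (add_le_add (add_le_add
      (hE _ _ (e2 i j0)) (hE _ _ (e3 i j0))) (hE _ _ (e2 i j))) (hE _ _ (e3 i j))))).trans
      (le_of_eq ?_)
    simp; ring
  have c1 := mul_le_mul_of_nonneg_left (mul_le_mul_of_nonneg_left b2
    (by positivity : (0 : ℝ) ≤ 2 ^ r)) (by positivity : (0 : ℝ) ≤ 1 / 11 ^ p * 11 ^ (p - 1))
  have c2 := mul_le_mul_of_nonneg_left b3 (by positivity : (0 : ℝ) ≤ (11 / 10) ^ p * 2 ^ (p - 1))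
  have c3 := b1.trans (hfin.trans (add_le_add c1 c2))
  obtain ⟨q, rfl⟩ := Nat.exists_eq_add_of_le' (by omega : 1 ≤ p)
  simp only [Nat.add_sub_cancel] at c3
  have c4 : (3 : ℝ) ^ (q + 1) / 11 ≤ 2 / 11 * (5 / 4) ^ (q + 1) + 2 * (11 / 4) ^ (q + 1) := by
    have e4 : (11 / 4 : ℝ) ^ (q + 1) = (11 / 10) ^ (q + 1) * 2 ^ (q + 1) * (5 / 4) ^ (q + 1) := by
      rw [← mul_pow, ← mul_pow]; norm_num
    have hpos : (0 : ℝ) < 2 ^ r * 2 ^ r := by positivity
    refine le_of_mul_le_mul_left ?_ hpos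
    rw [mul_assoc]
    refine c3.trans (le_of_eq ?_)
    rw [e4]
    field_simp
    ring
  have c5 : (5 / 4 : ℝ) ^ (q + 1) ≤ (11 / 4) ^ (q + 1) :=
    pow_le_pow_left₀ (by norm_num) (by norm_num) _
  have c6 : (3 : ℝ) ^ (q + 1) = (12 / 11) ^ (q + 1) * (11 / 4) ^ (q + 1) := by
    rw [← mul_pow]; norm_num
  have c7 : (12 / 11 : ℝ) ^ 41 ≤ (12 / 11) ^ (q + 1) := pow_le_pow_right₀ (by norm_num) hp
  have c8 : (33 : ℝ) ≤ (12 / 11) ^ 41 := by norm_num
  have c9 : (0 : ℝ) < (11 / 4) ^ (q + 1) := by positivity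
  nlinarith

universe u

theorem main (C : ℝ) : ∃ p : ℝ, 1 ≤ p ∧ ∀ D : ℝ, 1 ≤ D → D ≤ 5 / 4 → ∀ n₀ : ℕ,
    ∃ (M : Type) (_ : Fintype M) (_ : MetricSpace M), n₀ ≤ Fintype.card M ∧
      ∀ (X : Type u) [NormedAddCommGroup X] [NormedSpace ℝ X] [FiniteDimensional ℝ X],
        (Module.finrank ℝ X : ℝ) ≤ (Fintype.card M : ℝ) ^ (C / (p * D)) →
        ¬ ∃ f : M → lp (fun _ : ℕ => X) (ENNReal.ofReal p),
          ∀ x y, dist x y ≤ ‖f x - f y‖ ∧ ‖f x - f y‖ ≤ D * dist x y := by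
  obtain ⟨N, hN⟩ := exists_nat_ge (2 * C)
  obtain ⟨p, hp⟩ : ∃ p : ℕ, p = N + 41 := ⟨_, rfl⟩
  have hpr : (1 : ℝ) ≤ p := by exact_mod_cast (by omega : 1 ≤ p)
  refine ⟨p, hpr, fun D hD1 hD2 n₀ => ?_⟩
  obtain ⟨ρ, hρ⟩ : ∃ ρ : ℕ, ρ = n₀ + 2 * 11 ^ (2 * p) := ⟨_, rfl⟩
  have hρ2 : ρ < 2 ^ ρ := Nat.lt_two_pow_self
  have hcard : Fintype.card (V (2 * ρ)) = (2 * 2 ^ ρ) ^ 2 := by
    simp [V]; ring
  refine ⟨V (2 * ρ), inferInstance, ms adj far adj_symm far_symm far_adj, ?_, ?_⟩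
  · rw [hcard]
    have : 2 ^ ρ ≤ (2 * 2 ^ ρ) ^ 2 :=
      (by omega : 2 ^ ρ ≤ 2 * 2 ^ ρ).trans (Nat.le_self_pow (by norm_num) _)
    exact (hρ ▸ Nat.le_add_right _ _ : n₀ ≤ ρ).trans (hρ2.le.trans this)
  · intro X _ _ _ hk
    rintro ⟨f, hf⟩
    refine key (r := 2 * ρ) (p := p) (by omega) ?_ f (fun x y => ⟨(hf x y).1, (hf x y).2.trans ?_⟩)
    · refine hk.trans ?_
      rw [hcard]
      have a0 : (1 : ℝ) ≤ 2 * 2 ^ ρ := by
        have : (1 : ℝ) ≤ 2 ^ ρ := one_le_pow₀ (by norm_num)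
        linarith
      have a1 : C / (p * D) ≤ 1 / 2 := by
        rw [div_le_iff₀ (by positivity)]
        have : (N : ℝ) ≤ p := by exact_mod_cast (by omega : N ≤ p)
        nlinarith
      have a2 : (((2 * 2 ^ ρ) ^ 2 : ℕ) : ℝ) ^ (C / (p * D)) ≤ 2 * 2 ^ ρ := by
        push_cast
        refine (Real.rpow_le_rpow_of_exponent_le (one_le_pow₀ a0) a1).trans (le_of_eq ?_)
        rw [← Real.sqrt_eq_rpow, Real.sqrt_sq (by positivity)]
      refine a2.trans ?_
      have a3 : (2 * 11 ^ (2 * p) : ℝ) ≤ 2 ^ ρ := by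
        have : 2 * 11 ^ (2 * p) ≤ 2 ^ ρ :=
          (hρ ▸ Nat.le_add_left _ _ : 2 * 11 ^ (2 * p) ≤ ρ).trans hρ2.le
        exact_mod_cast this
      have a4 : (1 / 11 ^ p : ℝ) ^ 2 * 2 ^ (2 * ρ) = 2 ^ ρ / 11 ^ (2 * p) * 2 ^ ρ := by
        field_simp
        ring
      rw [a4]
      apply mul_le_mul_of_nonneg_right _ (by positivity)
      rw [le_div_iff₀ (by positivity)]
      exact a3
    · letI := ms (M := V (2 * ρ)) adj far adj_symm far_symm far_adj
      exact mul_le_mul_of_nonneg_right hD2 (dist_nonneg (x := x) (y := y))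

end Pool.Agent.H.MP_8476ae_an
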